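import Mathlib

set_option autoImplicit false

open Finset

namespace Pool.Agent.W248.CHG

lemma roth_pow_lower (k : ℕ) (hk : 6 ≤ k) :
    2 ^ (k ^ 2 - 5 * k - 1) ≤ rothNumberNat (2 ^ (k ^ 2 - 1)) := by
  have hk2 : 5 * k + 1 ≤ k ^ 2 := by nlinarith
  have hk3 : 1 ≤ k ^ 2 := by nlinarith
  have h1 := @Behrend.roth_lower_bound (2 ^ (k ^ 2 - 1))
  have hlog2 : (0.69 : ℝ) < Real.log 2 := by
    have := Real.log_two_gt_d9
    linarith
  have hkR : (6 : ℝ) ≤ k := by exact_mod_cast hk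
  have hlogn : Real.log (((2 ^ (k ^ 2 - 1) : ℕ) : ℝ)) = ((k : ℝ) ^ 2 - 1) * Real.log 2 := by
    push_cast
    rw [Real.log_pow, Nat.cast_sub hk3]
    push_cast
    ring
  have hsqrt : √(Real.log (((2 ^ (k ^ 2 - 1) : ℕ) : ℝ))) ≤ 5 / 4 * k * Real.log 2 := by
    rw [hlogn]
    apply Real.sqrt_le_iff.2
    refine ⟨by positivity, ?_⟩
    have h2 : (5 / 4 * k * Real.log 2) ^ 2 = (25 / 16 * Real.log 2) * (k ^ 2 * Real.log 2) := by
      ring
    rw [h2]
    have h3 : 1 ≤ 25 / 16 * Real.log 2 := by linarith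
    have h4 : 0 ≤ (k : ℝ) ^ 2 * Real.log 2 := by positivity
    nlinarith [Real.log_pos one_lt_two]
  have h5 : ((2 : ℝ) ^ (5 * k))⁻¹ ≤ Real.exp (-4 * √(Real.log (((2 ^ (k ^ 2 - 1) : ℕ) : ℝ)))) := by
    have h6 : (2 : ℝ) ^ (5 * k) = Real.exp ((5 * k) * Real.log 2) := by
      rw [mul_comm ((5 : ℝ) * k), Real.exp_mul, Real.exp_log two_pos, ← Real.rpow_natCast]
      push_cast
      rfl
    rw [h6, ← Real.exp_neg]
    apply Real.exp_le_exp.2
    linarith
  have h7 : (((2 ^ (k ^ 2 - 5 * k - 1) : ℕ) : ℝ)) = ((2 ^ (k ^ 2 - 1) : ℕ) : ℝ) *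
      ((2 : ℝ) ^ (5 * k))⁻¹ := by
    push_cast
    rw [← div_eq_mul_inv, eq_div_iff (by positivity), ← pow_add]
    congr 1
    omega
  have h8 : (((2 ^ (k ^ 2 - 5 * k - 1) : ℕ) : ℝ)) ≤ (rothNumberNat (2 ^ (k ^ 2 - 1)) : ℝ) := by
    rw [h7]
    exact le_trans (mul_le_mul_of_nonneg_left h5 (by positivity)) h1
  exact_mod_cast h8

/-- A block: a set without three term progressions in `[N, 3N/2)`, `N = 2 ^ (k ^ 2)`. -/
theorem exists_block (k : ℕ) (hk : 6 ≤ k) : ∃ B : Finset ℤ, B.card = 2 ^ (k ^ 2 - 5 * k - 1) ∧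
    (∀ x ∈ B, (2 : ℤ) ^ (k ^ 2) ≤ x ∧ 2 * x < 3 * 2 ^ (k ^ 2)) ∧ ThreeAPFree (B : Set ℤ) := by
  obtain ⟨t, ht, htc, hfree⟩ := rothNumberNat_spec (2 ^ (k ^ 2 - 1))
  obtain ⟨s, hst, hsc⟩ := Finset.exists_subset_card_eq
    (s := t) (n := 2 ^ (k ^ 2 - 5 * k - 1)) (by rw [htc]; exact roth_pow_lower k hk)
  have hinj : Function.Injective (fun x : ℕ => (2 : ℤ) ^ (k ^ 2) + x) := by
    intro x y hxy
    simpa using hxy
  refine ⟨s.map ⟨fun x : ℕ => (2 : ℤ) ^ (k ^ 2) + x, hinj⟩, ?_, ?_, ?_⟩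
  · rw [Finset.card_map, hsc]
  · intro x hx
    obtain ⟨y, hy, rfl⟩ := Finset.mem_map.1 hx
    have h1 : y < 2 ^ (k ^ 2 - 1) := Finset.mem_range.1 (ht (hst hy))
    have h2 : (y : ℤ) < 2 ^ (k ^ 2 - 1) := by exact_mod_cast h1
    have h3 : (2 : ℤ) ^ (k ^ 2) = 2 * 2 ^ (k ^ 2 - 1) := by
      rw [← pow_succ']
      congr 1
      have : 1 ≤ k ^ 2 := by nlinarith
      omega
    simp only [Function.Embedding.coeFn_mk]
    constructor
    · linarith [Int.natCast_nonneg y]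
    · linarith
  · intro a ha b hb c hc habc
    simp only [Finset.coe_map, Set.mem_image, Finset.mem_coe, Function.Embedding.coeFn_mk] at ha hb hc
    obtain ⟨a', ha', rfl⟩ := ha
    obtain ⟨b', hb', rfl⟩ := hb
    obtain ⟨c', hc', rfl⟩ := hc
    have h1 : (a' : ℤ) + c' = b' + b' := by linarith
    have h2 : a' + c' = b' + b' := by exact_mod_cast h1
    have h3 := hfree (hst ha') (hst hb') (hst hc') h2
    rw [h3]

lemma block_gap {i j : ℕ} (hij : i < j) (hi : 1 ≤ i) {x : ℤ} (hx : 2 * x < 3 * 2 ^ (i ^ 2)) :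
    4 * x < 2 ^ (j ^ 2) := by
  have h1 : i ^ 2 + 3 ≤ j ^ 2 := by nlinarith
  have h2 : (2 : ℤ) ^ (i ^ 2 + 3) ≤ 2 ^ (j ^ 2) := pow_le_pow_right₀ (by norm_num) h1
  rw [pow_add] at h2
  have h3 : (0 : ℤ) < 2 ^ (i ^ 2) := by positivity
  linarith

/-- The union of the blocks has no three term progressions. -/
theorem union_free (B : ℕ → Finset ℤ) (k0 : ℕ) (hk0 : 1 ≤ k0)
    (hB : ∀ k, ∀ x ∈ B k, (2 : ℤ) ^ ((k + k0) ^ 2) ≤ x ∧ 2 * x < 3 * 2 ^ ((k + k0) ^ 2))
    (hfree : ∀ k, ThreeAPFree (B k : Set ℤ)) :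
    ∀ a b c : ℤ, (∃ k, a ∈ B k) → (∃ k, b ∈ B k) → (∃ k, c ∈ B k) → a + c = b + b → a = b := by
  have key : ∀ a b c : ℤ, ∀ i j l, a ∈ B i → b ∈ B j → c ∈ B l → i ≤ l → a + c = b + b → a = b := by
    intro a b c i j l ha hb hc hil habc
    have a1 := hB i a ha
    have b1 := hB j b hb
    have c1 := hB l c hc
    have hpos : ∀ n : ℕ, (0 : ℤ) < 2 ^ (n ^ 2) := fun n => by positivity
    have hjl : j = l := by
      rcases lt_trichotomy j l with h | h | h
      · exfalso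
        have := block_gap (i := j + k0) (j := l + k0) (by omega) (by omega) b1.2
        have := hpos (i + k0)
        linarith
      · exact h
      · exfalso
        have h2 := block_gap (i := l + k0) (j := j + k0) (by omega) (by omega) c1.2
        have h3 : 4 * a < 2 ^ ((j + k0) ^ 2) :=
          block_gap (i := i + k0) (j := j + k0) (by omega) (by omega) a1.2
        have := hpos (j + k0)
        linarith
    subst hjl
    have hij : i = j := by
      rcases lt_or_eq_of_le hil with h | h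
      · exfalso
        have h3 : 4 * a < 2 ^ ((j + k0) ^ 2) :=
          block_gap (i := i + k0) (j := j + k0) (by omega) (by omega) a1.2
        linarith
      · exact h
    subst hij
    exact hfree i (Finset.mem_coe.2 ha) (Finset.mem_coe.2 hb) (Finset.mem_coe.2 hc) habc
  rintro a b c ⟨i, ha⟩ ⟨j, hb⟩ ⟨l, hc⟩ habc
  rcases le_total i l with h | h
  · exact key a b c i j l ha hb hc h habc
  · have := key c b a l j i hc hb ha h (by linarith)
    linarith

lemma block_disj (B : ℕ → Finset ℤ) (k0 : ℕ) (hk0 : 1 ≤ k0)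
    (hB : ∀ k, ∀ x ∈ B k, (2 : ℤ) ^ ((k + k0) ^ 2) ≤ x ∧ 2 * x < 3 * 2 ^ ((k + k0) ^ 2))
    {i j : ℕ} {x : ℤ} (hi : x ∈ B i) (hj : x ∈ B j) : i = j := by
  have a1 := hB i x hi
  have b1 := hB j x hj
  have hpos : ∀ n : ℕ, (0 : ℤ) < 2 ^ (n ^ 2) := fun n => by positivity
  rcases lt_trichotomy i j with h | h | h
  · exfalso
    have := block_gap (i := i + k0) (j := j + k0) (by omega) (by omega) a1.2
    have := hpos (i + k0)
    linarith
  · exact h
  · exfalso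
    have := block_gap (i := j + k0) (j := i + k0) (by omega) (by omega) b1.2
    have := hpos (j + k0)
    linarith

end Pool.Agent.W248.CHG
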