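import Mathlib

set_option autoImplicit false

open Finset

namespace Pool.Agent.W248.CHG

/-- the exponent -/
noncomputable def al (h g : ℕ) : ℝ := ((h : ℝ) - 1) * (g - 1) / (h * g - 1)

def ee (K : ℕ) : ℕ := K ^ 2 - 5 * K - 1

noncomputable def mu (h g K : ℕ) : ℕ := ⌊al h g * ee K⌋₊ - 2 * K

def kk (h g : ℕ) : ℕ := (h * g) ^ 2 + 6

lemma ee_cast {K : ℕ} (hK : 6 ≤ K) : ((ee K : ℕ) : ℝ) = (K : ℝ) ^ 2 - 5 * K - 1 := by
  unfold ee
  have h1 : 5 * K + 1 ≤ K ^ 2 := by nlinarith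
  have h2 : K ^ 2 - 5 * K - 1 = K ^ 2 - (5 * K + 1) := by omega
  rw [h2, Nat.cast_sub h1]
  push_cast
  ring

section
variable {h g : ℕ} (hh : 2 ≤ h) (hg : 2 ≤ g)
include hh hg

lemma D_pos : (0 : ℝ) < (h : ℝ) * g - 1 := by
  have : (2 : ℝ) ≤ h := by exact_mod_cast hh
  have : (2 : ℝ) ≤ g := by exact_mod_cast hg
  nlinarith

lemma al_lower : 1 ≤ al h g * ((h : ℝ) * g - 1) := by
  have h1 : (2 : ℝ) ≤ h := by exact_mod_cast hh
  have h2 : (2 : ℝ) ≤ g := by exact_mod_cast hg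
  unfold al
  rw [div_mul_cancel₀ _ (D_pos hh hg).ne']
  nlinarith

lemma al_eq : al h g * ((h : ℝ) * g - 1) = (h : ℝ) * g - (h + g - 1) := by
  unfold al
  rw [div_mul_cancel₀ _ (D_pos hh hg).ne']
  ring

lemma al_pos : 0 < al h g := by
  have h1 := al_lower hh hg
  have h2 := D_pos hh hg
  by_contra hc
  push Not at hc
  nlinarith

lemma al_lt_one : al h g < 1 := by
  have h1 := al_eq hh hg
  have h2 := D_pos hh hg
  have h3 : (2 : ℝ) ≤ h := by exact_mod_cast hh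
  have h4 : (2 : ℝ) ≤ g := by exact_mod_cast hg
  by_contra hc
  push Not at hc
  nlinarith

lemma D_ge_four : (4 : ℝ) ≤ (h : ℝ) * g := by
  have h3 : (2 : ℝ) ≤ h := by exact_mod_cast hh
  have h4 : (2 : ℝ) ≤ g := by exact_mod_cast hg
  nlinarith

lemma al_ee_ge {K : ℕ} (hK : kk h g ≤ K) : 2 * (K : ℝ) ≤ al h g * ee K := by
  have hD := D_ge_four hh hg
  have hK' : ((h : ℝ) * g) ^ 2 + 6 ≤ K := by
    have : ((kk h g : ℕ) : ℝ) ≤ K := by exact_mod_cast hK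
    unfold kk at this
    push_cast at this
    exact this
  have hK6 : 6 ≤ K := by unfold kk at hK; omega
  rw [ee_cast hK6]
  have h1 := al_lower hh hg
  have h2 := D_pos hh hg
  set D : ℝ := (h : ℝ) * g with hDdef
  have h3 : 2 * (K : ℝ) * (D - 1) ≤ (K : ℝ) ^ 2 - 5 * K - 1 := by nlinarith
  have h4 : 0 < al h g := al_pos hh hg
  have h5 : 0 ≤ 2 * (K : ℝ) := by positivity
  calc 2 * (K : ℝ) = 2 * (K : ℝ) * 1 := by ring
    _ ≤ 2 * (K : ℝ) * (al h g * (D - 1)) := by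
        exact mul_le_mul_of_nonneg_left h1 h5
    _ = al h g * (2 * (K : ℝ) * (D - 1)) := by ring
    _ ≤ _ := mul_le_mul_of_nonneg_left h3 h4.le

lemma mu_le {K : ℕ} (hK : kk h g ≤ K) : ((mu h g K : ℕ) : ℝ) ≤ al h g * ee K - 2 * K := by
  have h1 := al_ee_ge hh hg hK
  have h0 : 0 ≤ al h g * ee K := le_trans (by positivity) h1
  have h2 : 2 * K ≤ ⌊al h g * ee K⌋₊ := Nat.le_floor (by push_cast; exact h1)
  unfold mu
  rw [Nat.cast_sub h2]
  have := Nat.floor_le h0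
  push_cast
  linarith

lemma mu_ge {K : ℕ} (hK : kk h g ≤ K) : al h g * ee K - 2 * K - 1 ≤ ((mu h g K : ℕ) : ℝ) := by
  have h1 := al_ee_ge hh hg hK
  have h2 : 2 * K ≤ ⌊al h g * ee K⌋₊ := Nat.le_floor (by push_cast; exact h1)
  unfold mu
  rw [Nat.cast_sub h2]
  have := Nat.lt_floor_add_one (al h g * ee K)
  push_cast
  linarith

lemma mu_le_ee {K : ℕ} (hK : kk h g ≤ K) : mu h g K ≤ ee K := by
  have h1 := mu_le hh hg hK
  have h2 := al_lt_one hh hg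
  have h3 : (0 : ℝ) ≤ ee K := by positivity
  have h4 : ((mu h g K : ℕ) : ℝ) ≤ ee K := by nlinarith [Nat.cast_nonneg (α := ℝ) K]
  exact_mod_cast h4

lemma phi_mono {J K : ℕ} (hJ : kk h g ≤ J) (hJK : J ≤ K) :
    al h g * ee J - 2 * ((h : ℝ) * g) * J ≤ al h g * ee K - 2 * ((h : ℝ) * g) * K := by
  have hD := D_ge_four hh hg
  have hJ' : ((h : ℝ) * g) ^ 2 + 6 ≤ J := by
    have : ((kk h g : ℕ) : ℝ) ≤ J := by exact_mod_cast hJ
    unfold kk at this
    push_cast at this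
    exact this
  have hJ6 : 6 ≤ J := by unfold kk at hJ; omega
  have hJK' : (J : ℝ) ≤ K := by exact_mod_cast hJK
  rw [ee_cast hJ6, ee_cast (le_trans hJ6 hJK)]
  have h1 := al_lower hh hg
  have h2 := D_pos hh hg
  have h4 : 0 < al h g := al_pos hh hg
  set D : ℝ := (h : ℝ) * g with hDdef
  set a : ℝ := al h g with ha
  have h3 : 2 * D * (D - 1) ≤ (K : ℝ) + J - 5 := by nlinarith
  have h5 : 2 * D ≤ a * ((K : ℝ) + J - 5) := by
    calc 2 * D = 2 * D * 1 := by ring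
      _ ≤ 2 * D * (a * (D - 1)) := mul_le_mul_of_nonneg_left h1 (by linarith)
      _ = a * (2 * D * (D - 1)) := by ring
      _ ≤ _ := mul_le_mul_of_nonneg_left h3 h4.le
  have h6 : 0 ≤ ((K : ℝ) - J) * (a * ((K : ℝ) + J - 5) - 2 * D) :=
    mul_nonneg (by linarith) (by linarith)
  nlinarith

/-- The bound needed in `select`. -/
theorem numeric (k : ℕ) :
    (∑ j ∈ range (k + 1), ((((2 ^ mu h g (j + kk h g) : ℕ) : ℝ)) *
        ((2 ^ (ee (j + kk h g) - mu h g (j + kk h g)) : ℕ) : ℝ)) *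
      ((((2 ^ (ee (j + kk h g) - mu h g (j + kk h g)) : ℕ) : ℝ))⁻¹) ^
        (((h : ℝ) * g) / (h + g - 1))) ^ (h + g - 1)
      ≤ (1 / 2 / 2 * (1 / 2) ^ k) * (((2 ^ mu h g (k + kk h g) : ℕ) : ℝ) / 2) := by
  have hh' : (2 : ℝ) ≤ h := by exact_mod_cast hh
  have hg' : (2 : ℝ) ≤ g := by exact_mod_cast hg
  have hD := D_ge_four hh hg
  have hDpos := D_pos hh hg
  have haleq := al_eq hh hg
  have hal := al_pos hh hg
  have hal1 := al_lower hh hg
  set D : ℝ := (h : ℝ) * g with hDdef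
  set M : ℝ := (h : ℝ) + g - 1 with hMdef
  set a : ℝ := al h g with ha
  set k0 : ℕ := kk h g with hk0
  have hM3 : 3 ≤ M := by linarith
  have hMnat : (((h + g - 1 : ℕ)) : ℝ) = M := by
    rw [Nat.cast_sub (by omega)]
    push_cast
    rfl
  set K : ℕ := k + k0 with hK
  -- each term
  have hterm : ∀ j ∈ range (k + 1), ((((2 ^ mu h g (j + k0) : ℕ) : ℝ)) *
        ((2 ^ (ee (j + k0) - mu h g (j + k0)) : ℕ) : ℝ)) *
      ((((2 ^ (ee (j + k0) - mu h g (j + k0)) : ℕ) : ℝ))⁻¹) ^ (D / M) ≤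
      (2 : ℝ) ^ ((a * ee K - 2 * D * K) / M) := by
    intro j hj
    have hjk : j ≤ k := Nat.lt_succ_iff.1 (Finset.mem_range.1 hj)
    have hJ : k0 ≤ j + k0 := Nat.le_add_left _ _
    have m1 := mu_le hh hg hJ
    have m3 := mu_le_ee hh hg hJ
    have m4 := phi_mono hh hg hJ (show j + k0 ≤ K by omega)
    set J : ℕ := j + k0 with hJdef
    have c1 : (((2 ^ mu h g J : ℕ) : ℝ)) * ((2 ^ (ee J - mu h g J) : ℕ) : ℝ) =
        (2 : ℝ) ^ ((ee J : ℕ) : ℝ) := by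
      push_cast
      rw [← pow_add, Real.rpow_natCast]
      congr 1
      omega
    have c2 : ((((2 ^ (ee J - mu h g J) : ℕ) : ℝ))⁻¹) ^ (D / M) =
        (2 : ℝ) ^ (-(((ee J : ℕ) : ℝ) - mu h g J) * (D / M)) := by
      rw [Real.rpow_mul (by norm_num), Real.rpow_neg (by norm_num)]
      congr 2
      push_cast
      rw [← Nat.cast_sub m3, Real.rpow_natCast]
    rw [c1, c2, ← Real.rpow_add (by norm_num)]
    apply Real.rpow_le_rpow_of_exponent_le (by norm_num)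
    have e1 : ((ee J : ℕ) : ℝ) + -(((ee J : ℕ) : ℝ) - mu h g J) * (D / M) =
        (((ee J : ℕ) : ℝ) * (M - D) + mu h g J * D) / M := by
      field_simp
      ring
    rw [e1]
    apply div_le_div_of_nonneg_right _ (by linarith)
    have e2 : M - D = a - a * D := by linarith
    rw [e2]
    nlinarith
  have hsum : (∑ j ∈ range (k + 1), ((((2 ^ mu h g (j + k0) : ℕ) : ℝ)) *
        ((2 ^ (ee (j + k0) - mu h g (j + k0)) : ℕ) : ℝ)) *
      ((((2 ^ (ee (j + k0) - mu h g (j + k0)) : ℕ) : ℝ))⁻¹) ^ (D / M)) ≤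
      ((k : ℝ) + 1) * (2 : ℝ) ^ ((a * ee K - 2 * D * K) / M) := by
    refine (Finset.sum_le_sum hterm).trans ?_
    rw [Finset.sum_const, Finset.card_range, nsmul_eq_mul]
    push_cast
    exact le_rfl
  have hnn : 0 ≤ (∑ j ∈ range (k + 1), ((((2 ^ mu h g (j + k0) : ℕ) : ℝ)) *
        ((2 ^ (ee (j + k0) - mu h g (j + k0)) : ℕ) : ℝ)) *
      ((((2 ^ (ee (j + k0) - mu h g (j + k0)) : ℕ) : ℝ))⁻¹) ^ (D / M)) := by positivity
  refine (pow_le_pow_left₀ hnn hsum _).trans ?_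
  have hk2 : (k : ℝ) + 1 ≤ (2 : ℝ) ^ (k : ℝ) := by
    rw [Real.rpow_natCast]
    have : k + 1 ≤ 2 ^ k := Nat.lt_two_pow_self
    exact_mod_cast this
  have s1 : (((k : ℝ) + 1) * (2 : ℝ) ^ ((a * ee K - 2 * D * K) / M)) ^ (h + g - 1) ≤
      (2 : ℝ) ^ (((k : ℝ) + (a * ee K - 2 * D * K) / M) * M) := by
    rw [Real.rpow_mul (by norm_num), ← hMnat, Real.rpow_natCast, hMnat]
    refine pow_le_pow_left₀ (by positivity) ?_ _
    rw [Real.rpow_add (by norm_num)]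
    exact mul_le_mul_of_nonneg_right hk2 (by positivity)
  refine s1.trans ?_
  have hKk0 : k0 ≤ K := by omega
  have m2 := mu_ge hh hg hKk0
  have s2 : (1 / 2 / 2 * (1 / 2 : ℝ) ^ k) * (((2 ^ mu h g K : ℕ) : ℝ) / 2) =
      (2 : ℝ) ^ (((mu h g K : ℕ) : ℝ) - k - 3) := by
    rw [Real.rpow_sub (by norm_num), Real.rpow_sub (by norm_num)]
    push_cast
    rw [Real.rpow_natCast, Real.rpow_natCast]
    have hpow : (1 / 2 : ℝ) ^ k * 2 ^ k = 1 := by
      rw [← mul_pow]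
      norm_num
    norm_num
    field_simp
    norm_num at hpow ⊢
    exact hpow
  rw [s2]
  apply Real.rpow_le_rpow_of_exponent_le (by norm_num)
  have hKreal : ((K : ℕ) : ℝ) = (k : ℝ) + k0 := by rw [hK]; push_cast; ring
  have hk0r : (22 : ℝ) ≤ k0 := by
    have : ((k0 : ℕ) : ℝ) = D ^ 2 + 6 := by
      rw [hk0]; unfold kk; push_cast; rfl
    rw [this]
    nlinarith
  have hkn : (0 : ℝ) ≤ k := by positivity
  have e3 : ((k : ℝ) + (a * ee K - 2 * D * K) / M) * M = k * M + (a * ee K - 2 * D * K) := by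
    field_simp
  rw [e3]
  -- D ≥ M + 1
  have hDM : M + 1 ≤ D := by linarith
  have f1 : (M + 1) * (K : ℝ) ≤ D * K := mul_le_mul_of_nonneg_right hDM (by positivity)
  have f2 : M * (k : ℝ) ≤ M * K := by
    apply mul_le_mul_of_nonneg_left _ (by linarith)
    rw [hKreal]
    linarith
  have f3 : 3 * (K : ℝ) ≤ M * K := mul_le_mul_of_nonneg_right hM3 (by positivity)
  nlinarith

end

end Pool.Agent.W248.CHG
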