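import Mathlib

set_option autoImplicit false

open Finset

namespace Pool.Agent.W248.CHG

/-- The double star with centres `a` and `b` in the complete bipartite graph. -/
def dstar (h g : ℕ) (c : Fin h × Fin g) : Finset (Fin h × Fin g) :=
  univ.filter (fun e => e.1 = c.1 ∨ e.2 = c.2)

lemma card_dstar (h g : ℕ) (c : Fin h × Fin g) : (dstar h g c).card + 1 = h + g := by
  classical
  have h1 : (univ.filter (fun e : Fin h × Fin g => e.1 = c.1)).card = g := by
    have : (univ.filter (fun e : Fin h × Fin g => e.1 = c.1)) = {c.1} ×ˢ univ := by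
      ext e
      simp only [mem_filter, mem_univ, true_and, mem_product, mem_singleton, and_true]
    rw [this]
    simp
  have h2 : (univ.filter (fun e : Fin h × Fin g => e.2 = c.2)).card = h := by
    have : (univ.filter (fun e : Fin h × Fin g => e.2 = c.2)) = univ ×ˢ {c.2} := by
      ext e
      simp only [mem_filter, mem_univ, true_and, mem_product, mem_singleton, and_true]
    rw [this]
    simp
  have h3 : (univ.filter (fun e : Fin h × Fin g => e.1 = c.1 ∧ e.2 = c.2)).card = 1 := by
    have : (univ.filter (fun e : Fin h × Fin g => e.1 = c.1 ∧ e.2 = c.2)) = {c} := by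
      ext e
      simp [Prod.ext_iff]
    rw [this]
    simp
  have h4 := Finset.card_union_add_card_inter (univ.filter (fun e : Fin h × Fin g => e.1 = c.1))
    (univ.filter (fun e : Fin h × Fin g => e.2 = c.2))
  rw [← Finset.filter_or, ← Finset.filter_and] at h4
  unfold dstar
  omega

/-- number of double stars through an edge -/
lemma card_dstar' (h g : ℕ) (e : Fin h × Fin g) :
    (univ.filter (fun c : Fin h × Fin g => e ∈ dstar h g c)).card + 1 = h + g := by
  have : (univ.filter (fun c : Fin h × Fin g => e ∈ dstar h g c)) = dstar h g e := by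
    ext c
    simp only [dstar, mem_filter, mem_univ, true_and]
    constructor
    · rintro (h | h)
      · exact Or.inl h.symm
      · exact Or.inr h.symm
    · rintro (h | h)
      · exact Or.inl h.symm
      · exact Or.inr h.symm
  rw [this, card_dstar]

/-- AM-GM over the double stars. -/
lemma prod_le_avg (h g : ℕ) (hh : 1 ≤ h) (hg : 1 ≤ g) (w : Fin h × Fin g → ℝ)
    (hw : ∀ e, 0 < w e) :
    ∏ e, w e ≤ ∑ c : Fin h × Fin g, (1 / ((h : ℝ) * g)) *
      ∏ e ∈ dstar h g c, w e ^ (((h : ℝ) * g) / (h + g - 1)) := by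
  classical
  have hh' : (1 : ℝ) ≤ h := by exact_mod_cast hh
  have hg' : (1 : ℝ) ≤ g := by exact_mod_cast hg
  have hD : 0 < (h : ℝ) * g := by positivity
  have hM : 0 < (h : ℝ) + g - 1 := by linarith
  have key := Real.geom_mean_le_arith_mean_weighted (s := (univ : Finset (Fin h × Fin g)))
    (w := fun _ => 1 / ((h : ℝ) * g))
    (z := fun c => ∏ e ∈ dstar h g c, w e ^ (((h : ℝ) * g) / (h + g - 1)))
    (fun _ _ => by positivity) (by simp; field_simp)
    (fun c _ => Finset.prod_nonneg (fun e _ => Real.rpow_nonneg (hw e).le _))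
  refine le_trans (le_of_eq ?_) key
  have h1 : ∀ c : Fin h × Fin g,
      (∏ e ∈ dstar h g c, w e ^ (((h : ℝ) * g) / (h + g - 1))) ^ (1 / ((h : ℝ) * g)) =
      ∏ e : Fin h × Fin g, if e ∈ dstar h g c then w e ^ (1 / ((h : ℝ) + g - 1)) else 1 := by
    intro c
    rw [← Real.finsetProd_rpow _ _ (fun e _ => Real.rpow_nonneg (hw e).le _),
      Finset.prod_ite_mem, Finset.univ_inter]
    refine Finset.prod_congr rfl (fun e _ => ?_)
    rw [← Real.rpow_mul (hw e).le]
    congr 1
    field_simp
  simp_rw [h1]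
  rw [Finset.prod_comm]
  refine Finset.prod_congr rfl (fun e _ => ?_)
  rw [Finset.prod_ite, Finset.prod_const_one, mul_one, Finset.prod_const, ← Real.rpow_natCast,
    ← Real.rpow_mul (hw e).le]
  have h2 := card_dstar' h g e
  have h3 : (((univ.filter (fun c : Fin h × Fin g => e ∈ dstar h g c)).card : ℕ) : ℝ) =
      (h : ℝ) + g - 1 := by
    have : (((univ.filter (fun c : Fin h × Fin g => e ∈ dstar h g c)).card : ℕ) : ℝ) + 1 =
      (h : ℝ) + g := by exact_mod_cast h2
    linarith
  rw [h3, one_div, inv_mul_cancel₀ hM.ne', Real.rpow_one]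

/-- additive matrices -/
def Additive' {h g : ℕ} (z : Fin h × Fin g → ℤ) : Prop :=
  ∀ i i' j j', z (i, j) + z (i', j') = z (i, j') + z (i', j)

/-- An additive matrix is determined by its entries on a double star. -/
lemma additive_ext {h g : ℕ} (c : Fin h × Fin g) (z z' : Fin h × Fin g → ℤ) (hz : Additive' z)
    (hz' : Additive' z') (hzz : ∀ e ∈ dstar h g c, z e = z' e) : z = z' := by
  funext ⟨i, j⟩
  have h1 := hz i c.1 j c.2
  have h2 := hz' i c.1 j c.2
  have e1 : z (c.1, c.2) = z' (c.1, c.2) := hzz _ (by simp [dstar])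
  have e2 : z (i, c.2) = z' (i, c.2) := hzz _ (by simp [dstar])
  have e3 : z (c.1, j) = z' (c.1, j) := hzz _ (by simp [dstar])
  linarith

/-- Sum over additive matrices of a product over a double star. -/
lemma sum_dstar_le {h g : ℕ} (c : Fin h × Fin g) (B : Finset ℤ) (Z : Finset (Fin h × Fin g → ℤ))
    (hZ : ∀ z ∈ Z, Additive' z ∧ ∀ e, z e ∈ B) (q : ℤ → ℝ) (hq : ∀ x ∈ B, 0 ≤ q x) :
    ∑ z ∈ Z, ∏ e ∈ dstar h g c, q (z e) ≤ (∑ x ∈ B, q x) ^ (dstar h g c).card := by
  classical
  have h1 : (∑ x ∈ B, q x) ^ (dstar h g c).card = ∏ _e : (dstar h g c), ∑ x ∈ B, q x := by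
    rw [Finset.prod_const, Finset.card_univ, Fintype.card_coe]
  rw [h1, Finset.prod_univ_sum]
  have h2 : ∀ z ∈ Z, ∏ e ∈ dstar h g c, q (z e) = ∏ e : (dstar h g c), q (z e.1) := by
    intro z _
    exact (Finset.prod_coe_sort (dstar h g c) (fun e => q (z e))).symm
  rw [Finset.sum_congr rfl h2]
  have hinj : Set.InjOn (fun (z : Fin h × Fin g → ℤ) (e : (dstar h g c)) => z e.1) (Z : Set _) := by
    intro z hz z' hz' hzz
    refine additive_ext c z z' (hZ z hz).1 (hZ z' hz').1 (fun e he => ?_)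
    exact congrFun hzz ⟨e, he⟩
  rw [← Finset.sum_image (s := Z) (g := fun (z : Fin h × Fin g → ℤ) (e : (dstar h g c)) => z e.1)
    (f := fun w => ∏ e : (dstar h g c), q (w e)) hinj]
  refine Finset.sum_le_sum_of_subset_of_nonneg ?_ ?_
  · intro w hw
    obtain ⟨z, hz, rfl⟩ := Finset.mem_image.1 hw
    rw [Fintype.mem_piFinset]
    intro e
    exact (hZ z hz).2 e.1
  · intro w hw _
    rw [Fintype.mem_piFinset] at hw
    exact Finset.prod_nonneg (fun e _ => hq _ (hw e))

/-- The weighted count of additive matrices. -/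
theorem weighted_count (h g : ℕ) (hh : 1 ≤ h) (hg : 1 ≤ g) (B : Finset ℤ)
    (Z : Finset (Fin h × Fin g → ℤ))
    (hZ : ∀ z ∈ Z, Additive' z ∧ ∀ e, z e ∈ B) (p : ℤ → ℝ) (hp : ∀ x ∈ B, 0 < p x) :
    ∑ z ∈ Z, ∏ e, p (z e) ≤
      (∑ x ∈ B, p x ^ (((h : ℝ) * g) / (h + g - 1))) ^ (h + g - 1) := by
  classical
  have hh' : (1 : ℝ) ≤ h := by exact_mod_cast hh
  have hg' : (1 : ℝ) ≤ g := by exact_mod_cast hg
  have hD : 0 < (h : ℝ) * g := by positivity
  calc ∑ z ∈ Z, ∏ e, p (z e)
      ≤ ∑ z ∈ Z, ∑ c : Fin h × Fin g, (1 / ((h : ℝ) * g)) *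
          ∏ e ∈ dstar h g c, p (z e) ^ (((h : ℝ) * g) / (h + g - 1)) := by
        refine Finset.sum_le_sum (fun z hz => ?_)
        exact prod_le_avg h g hh hg (fun e => p (z e)) (fun e => hp _ ((hZ z hz).2 e))
    _ = ∑ c : Fin h × Fin g, (1 / ((h : ℝ) * g)) * ∑ z ∈ Z,
          ∏ e ∈ dstar h g c, p (z e) ^ (((h : ℝ) * g) / (h + g - 1)) := by
        rw [Finset.sum_comm]
        refine Finset.sum_congr rfl (fun c _ => ?_)
        rw [Finset.mul_sum]
    _ ≤ ∑ _c : Fin h × Fin g, (1 / ((h : ℝ) * g)) *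
          (∑ x ∈ B, p x ^ (((h : ℝ) * g) / (h + g - 1))) ^ (h + g - 1) := by
        refine Finset.sum_le_sum (fun c _ => ?_)
        refine mul_le_mul_of_nonneg_left ?_ (by positivity)
        have h1 := sum_dstar_le c B Z hZ (fun x => p x ^ (((h : ℝ) * g) / (h + g - 1)))
          (fun x hx => Real.rpow_nonneg (hp x hx).le _)
        have h2 : (dstar h g c).card = h + g - 1 := by
          have := card_dstar h g c
          omega
        rwa [h2] at h1
    _ = _ := by
        rw [Finset.sum_const, Finset.card_univ, Fintype.card_prod, Fintype.card_fin,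
          Fintype.card_fin, nsmul_eq_mul]
        push_cast
        field_simp

end Pool.Agent.W248.CHG
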