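import Mathlib

set_option autoImplicit false

open MeasureTheory Finset
open scoped ENNReal

namespace Pool.Agent.W248.CHG

/-- Markov and the union bound: if for each `k` the expected number of events `E k s`, `s ∈ C k`,
is at most `η k * M k` and `∑ η k < 1`, then some `ω` lies for every `k` in fewer than `M k` of
the events `E k s`. -/
theorem exists_good {Ω : Type} [MeasurableSpace Ω] (μ : Measure Ω) [IsProbabilityMeasure μ]
    {σ : ℕ → Type} (C : ∀ k, Finset (σ k)) (E : ∀ k, σ k → Set Ω)
    (hE : ∀ k, ∀ s ∈ C k, MeasurableSet (E k s)) (M η : ℕ → ℝ≥0∞)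
    (hM : ∀ k, M k ≠ 0) (hM' : ∀ k, M k ≠ ∞)
    (hsum : ∀ k, ∑ s ∈ C k, μ (E k s) ≤ η k * M k) (hη : ∑' k, η k < 1) :
    ∃ ω, ∀ k, (∑ s ∈ C k, (E k s).indicator (fun _ => (1 : ℝ≥0∞)) ω) < M k := by
  classical
  set F : ℕ → Ω → ℝ≥0∞ := fun k ω => ∑ s ∈ C k, (E k s).indicator (fun _ => (1 : ℝ≥0∞)) ω with hF
  have hmeas : ∀ k, Measurable (F k) := by
    intro k
    refine Finset.measurable_sum _ (fun s hs => ?_)
    exact measurable_const.indicator (hE k s hs)
  have hint : ∀ k, ∫⁻ ω, F k ω ∂μ ≤ η k * M k := by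
    intro k
    rw [hF]
    simp only
    rw [lintegral_finsetSum _ (fun s hs => measurable_const.indicator (hE k s hs))]
    refine le_trans (le_of_eq ?_) (hsum k)
    refine Finset.sum_congr rfl (fun s hs => ?_)
    rw [lintegral_indicator (hE k s hs)]
    simp
  have hbad : ∀ k, μ {ω | M k ≤ F k ω} ≤ η k := by
    intro k
    refine (meas_ge_le_lintegral_div (hmeas k).aemeasurable (hM k) (hM' k)).trans ?_
    refine (ENNReal.div_le_div_right (hint k) _).trans ?_
    rw [ENNReal.mul_div_cancel_right (hM k) (hM' k)]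
  have hU : μ (⋃ k, {ω | M k ≤ F k ω}) < 1 :=
    lt_of_le_of_lt ((measure_iUnion_le _).trans (ENNReal.tsum_le_tsum hbad)) hη
  have hne : (⋃ k, {ω | M k ≤ F k ω}) ≠ Set.univ := by
    intro h
    rw [h, measure_univ] at hU
    exact lt_irrefl _ hU
  obtain ⟨ω, hω⟩ := (Set.ne_univ_iff_exists_notMem _).1 hne
  refine ⟨ω, fun k => ?_⟩
  have : ω ∉ {ω | M k ≤ F k ω} := fun h => hω (Set.mem_iUnion.2 ⟨k, h⟩)
  simpa using this

/-- In an infinite product of uniform probability spaces, the probability that the coordinates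
pass through the points of a finite set `S` is at most the product of the probabilities. -/
theorem prob_pass {ι : Type} {X : ι → Type} [∀ i, Fintype (X i)] [∀ i, Nonempty (X i)]
    [∀ i, MeasurableSpace (X i)] [∀ i, MeasurableSingletonClass (X i)]
    (S : Finset (Σ i, X i)) :
    Measure.infinitePi (fun i => (PMF.uniformOfFintype (X i)).toMeasure)
      {f : ∀ i, X i | ∀ p ∈ S, f p.1 = p.2} ≤
    ∏ p ∈ S, ((Fintype.card (X p.1) : ℝ≥0∞))⁻¹ := by
  classical
  by_cases hinj : Set.InjOn Sigma.fst (S : Set (Σ i, X i))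
  · -- the event is a finite product set
    set t : ∀ i, Set (X i) := fun i => {x | ∀ p ∈ S, ∀ h : p.1 = i, h ▸ p.2 = x} with ht
    have hev : {f : ∀ i, X i | ∀ p ∈ S, f p.1 = p.2} ⊆
        Set.pi (↑(S.image Sigma.fst) : Set ι) t := by
      intro f hf i hi p hp h
      subst h
      exact (hf p hp).symm
    refine (measure_mono hev).trans ?_
    rw [Measure.infinitePi_pi]
    · rw [Finset.prod_image (fun a ha b hb h => hinj ha hb h)]
      refine Finset.prod_le_prod' (fun p hp => ?_)
      have hsub : t p.1 ⊆ {p.2} := by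
        intro x hx
        exact (hx p hp rfl).symm
      refine (measure_mono hsub).trans ?_
      rw [PMF.toMeasure_apply_singleton _ _ (measurableSet_singleton _),
        PMF.uniformOfFintype_apply]
    · intro i hi
      exact (Set.toFinite _).measurableSet
  · -- the event is empty
    have hempty : {f : ∀ i, X i | ∀ p ∈ S, f p.1 = p.2} = ∅ := by
      rw [Set.eq_empty_iff_forall_notMem]
      intro f hf
      apply hinj
      rintro ⟨i, x⟩ hp ⟨j, y⟩ hq (h : i = j)
      subst h
      have h1 := hf _ hp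
      have h2 := hf _ hq
      simp only at h1 h2
      rw [← h1, ← h2]
    rw [hempty]
    simp

end Pool.Agent.W248.CHG
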