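import Mathlib
import Pool.Agent.W248.CHGProb
import Pool.Agent.W248.CHGCount

set_option autoImplicit false

open MeasureTheory Finset
open scoped ENNReal

namespace Pool.Agent.W248.CHG

/-- the injective additive matrices with entries in `B` -/
noncomputable def Zset (h g : ℕ) (B : Finset ℤ) : Finset (Fin h × Fin g → ℤ) := by
  classical
  exact (Fintype.piFinset (fun _ : Fin h × Fin g => B)).filter
    (fun z => Function.Injective z ∧ Additive' z)

lemma mem_Zset {h g : ℕ} {B : Finset ℤ} {z : Fin h × Fin g → ℤ} :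
    z ∈ Zset h g B ↔ (∀ e, z e ∈ B) ∧ Function.Injective z ∧ Additive' z := by
  classical
  unfold Zset
  rw [mem_filter, Fintype.mem_piFinset]

theorem select (h g : ℕ) (hh : 1 ≤ h) (hg : 1 ≤ g) (B : ℕ → Finset ℤ)
    (hdisj : ∀ i j x, x ∈ B i → x ∈ B j → i = j) (m r : ℕ → ℕ) (hm : ∀ k, 0 < m k)
    (hr : ∀ k, 0 < r k) (hcard : ∀ k, (B k).card = m k * r k) (η : ℕ → ℝ)
    (hη0 : ∀ k, 0 ≤ η k) (hηs : Summable η) (hη1 : ∑' k, η k < 1)
    (hbound : ∀ k, (∑ j ∈ range (k + 1), ((m j : ℝ) * r j) *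
      ((r j : ℝ)⁻¹) ^ (((h : ℝ) * g) / (h + g - 1))) ^ (h + g - 1) ≤ η k * ((m k : ℝ) / 2)) :
    ∃ A0 : Set ℤ, (∀ x ∈ A0, ∃ k, x ∈ B k) ∧ (∀ k, m k ≤ (A0 ∩ (B k : Set ℤ)).ncard) ∧
      ∀ k, (({z ∈ (Zset h g ((range (k + 1)).biUnion B) : Set (Fin h × Fin g → ℤ)) |
        ∀ e, z e ∈ A0}).ncard : ℝ) < (m k : ℝ) / 2 := by
  classical
  haveI hne : ∀ i : (Σ k : ℕ, Fin (m k)), Nonempty (Fin (r i.1)) := fun i => ⟨⟨0, hr _⟩⟩
  let β : ∀ k, Fin (m k) × Fin (r k) ≃ {x // x ∈ B k} := fun k =>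
    Fintype.equivOfCardEq (by simp [hcard])
  let val : (Σ i : (Σ k : ℕ, Fin (m k)), Fin (r i.1)) → ℤ := fun p => (β p.1.1 (p.1.2, p.2) : ℤ)
  have hval_mem : ∀ p, val p ∈ B p.1.1 := fun p => (β p.1.1 (p.1.2, p.2)).2
  have hval_inj : Function.Injective val := by
    rintro ⟨⟨k, t⟩, s⟩ ⟨⟨k', t'⟩, s'⟩ hpq
    have h1 : k = k' := hdisj k k' _ (hval_mem ⟨⟨k, t⟩, s⟩) (by rw [hpq]; exact hval_mem ⟨⟨k', t'⟩, s'⟩)
    subst h1
    have h2 : (β k (t, s) : ℤ) = (β k (t', s') : ℤ) := hpq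
    have h3 := (β k).injective (Subtype.ext h2)
    simp only [Prod.mk.injEq] at h3
    obtain ⟨rfl, rfl⟩ := h3
    rfl
  have hval_surj : ∀ k, ∀ x ∈ B k, ∃ p, p.1.1 = k ∧ val p = x := by
    intro k x hx
    refine ⟨⟨⟨k, ((β k).symm ⟨x, hx⟩).1⟩, ((β k).symm ⟨x, hx⟩).2⟩, rfl, ?_⟩
    simp [val]
  let μ : Measure (∀ i : (Σ k : ℕ, Fin (m k)), Fin (r i.1)) :=
    Measure.infinitePi (fun i => (PMF.uniformOfFintype (Fin (r i.1))).toMeasure)
  let Af : (∀ i : (Σ k : ℕ, Fin (m k)), Fin (r i.1)) → Set ℤ :=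
    fun f => Set.range (fun i => val ⟨i, f i⟩)
  have hAf : ∀ f p, val p ∈ Af f ↔ f p.1 = p.2 := by
    intro f p
    constructor
    · rintro ⟨i, hi⟩
      have := hval_inj hi
      rw [← this]
    · intro h
      refine ⟨p.1, ?_⟩
      simp only
      rw [h]
  -- weights
  let pw : ℤ → ℝ := fun x => if hx : ∃ p, val p = x then ((r (hx.choose).1.1 : ℝ))⁻¹ else 1
  have hpw_val : ∀ p, pw (val p) = ((r p.1.1 : ℝ))⁻¹ := by
    intro p
    have hx : ∃ q, val q = val p := ⟨p, rfl⟩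
    have h1 : hx.choose = p := hval_inj hx.choose_spec
    simp only [pw, dif_pos hx]
    rw [h1]
  have hpw_B : ∀ k, ∀ x ∈ B k, pw x = ((r k : ℝ))⁻¹ := by
    intro k x hx
    obtain ⟨p, hp1, hp2⟩ := hval_surj k x hx
    rw [← hp2, hpw_val, hp1]
  have hpw_pos : ∀ x, 0 < pw x := by
    intro x
    by_cases hx : ∃ p, val p = x
    · obtain ⟨p, rfl⟩ := hx
      rw [hpw_val]
      have := hr p.1.1
      positivity
    · simp only [pw, dif_neg hx]
      exact one_pos
  let Bk : ℕ → Finset ℤ := fun k => (range (k + 1)).biUnion B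
  let C : ∀ k : ℕ, Finset (Fin h × Fin g → ℤ) := fun k => Zset h g (Bk k)
  let Ev : ℕ → (Fin h × Fin g → ℤ) → Set (∀ i : (Σ k : ℕ, Fin (m k)), Fin (r i.1)) :=
    fun _ z => {f | ∀ e, z e ∈ Af f}
  -- each event
  have hcode : ∀ k, ∀ z ∈ C k, ∃ P : Fin h × Fin g → (Σ i : (Σ k : ℕ, Fin (m k)), Fin (r i.1)),
      (∀ e, val (P e) = z e) ∧ Function.Injective P := by
    intro k z hz
    obtain ⟨h1, h2, h3⟩ := mem_Zset.1 hz
    have : ∀ e, ∃ p, val p = z e := by
      intro e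
      obtain ⟨j, _, hj⟩ := Finset.mem_biUnion.1 (h1 e)
      obtain ⟨p, _, hp⟩ := hval_surj j _ hj
      exact ⟨p, hp⟩
    choose P hP using this
    refine ⟨P, hP, ?_⟩
    intro e e' hee
    apply h2
    rw [← hP e, ← hP e', hee]
  have hEv : ∀ k, ∀ z ∈ C k, ∀ P : Fin h × Fin g → (Σ i : (Σ k : ℕ, Fin (m k)), Fin (r i.1)),
      (∀ e, val (P e) = z e) → Ev k z = {f | ∀ p ∈ univ.image P, f p.1 = p.2} := by
    intro k z _ P hP
    ext f
    simp only [Ev, Set.mem_setOf_eq, mem_image, mem_univ, true_and, forall_exists_index,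
      forall_apply_eq_imp_iff]
    refine forall_congr' (fun e => ?_)
    rw [← hP e, hAf]
  have hmeas : ∀ k, ∀ z ∈ C k, MeasurableSet (Ev k z) := by
    intro k z hz
    obtain ⟨P, hP, _⟩ := hcode k z hz
    rw [hEv k z hz P hP]
    have : {f : (∀ i : (Σ k : ℕ, Fin (m k)), Fin (r i.1)) | ∀ p ∈ univ.image P, f p.1 = p.2} =
        ⋂ p ∈ univ.image P, (fun f : (∀ i : (Σ k : ℕ, Fin (m k)), Fin (r i.1)) => f p.1) ⁻¹' {p.2} := by
      ext f
      simp
    rw [this]
    refine Finset.measurableSet_biInter _ (fun p _ => ?_)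
    exact measurable_pi_apply _ (measurableSet_singleton _)
  have hprob : ∀ k, ∀ z ∈ C k, μ (Ev k z) ≤ ENNReal.ofReal (∏ e, pw (z e)) := by
    intro k z hz
    obtain ⟨P, hP, hPinj⟩ := hcode k z hz
    rw [hEv k z hz P hP]
    refine (prob_pass (univ.image P)).trans ?_
    rw [Finset.prod_image (fun a _ b _ hab => hPinj hab),
      ENNReal.ofReal_prod_of_nonneg (fun e _ => (hpw_pos _).le)]
    refine Finset.prod_le_prod' (fun e _ => ?_)
    rw [← hP e, hpw_val, ENNReal.ofReal_inv_of_pos (by exact_mod_cast hr _),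
      ENNReal.ofReal_natCast, Fintype.card_fin]
  have hsum : ∀ k, ∑ z ∈ C k, μ (Ev k z) ≤
      ENNReal.ofReal (η k) * ENNReal.ofReal ((m k : ℝ) / 2) := by
    intro k
    calc ∑ z ∈ C k, μ (Ev k z) ≤ ∑ z ∈ C k, ENNReal.ofReal (∏ e, pw (z e)) :=
          Finset.sum_le_sum (hprob k)
      _ = ENNReal.ofReal (∑ z ∈ C k, ∏ e, pw (z e)) := by
          rw [ENNReal.ofReal_sum_of_nonneg]
          intro z _
          exact Finset.prod_nonneg (fun e _ => (hpw_pos _).le)
      _ ≤ ENNReal.ofReal (η k * ((m k : ℝ) / 2)) := by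
          apply ENNReal.ofReal_le_ofReal
          refine (weighted_count h g hh hg (Bk k) (C k)
            (fun z hz => ⟨(mem_Zset.1 hz).2.2, (mem_Zset.1 hz).1⟩) pw
            (fun x _ => hpw_pos x)).trans ?_
          refine le_trans (le_of_eq ?_) (hbound k)
          congr 1
          rw [Finset.sum_biUnion]
          · refine Finset.sum_congr rfl (fun j _ => ?_)
            rw [Finset.sum_congr rfl (fun x hx => by rw [hpw_B j x hx]), Finset.sum_const, hcard,
              nsmul_eq_mul]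
            push_cast
            ring
          · intro i _ j _ hij
            rw [Function.onFun, Finset.disjoint_left]
            intro x hx hx'
            exact hij (hdisj i j x hx hx')
      _ = _ := ENNReal.ofReal_mul (hη0 k)
  obtain ⟨f, hf⟩ := exists_good μ (σ := fun _ => (Fin h × Fin g → ℤ)) C Ev hmeas
    (fun k => ENNReal.ofReal ((m k : ℝ) / 2)) (fun k => ENNReal.ofReal (η k))
    (fun k => by
      have : (0 : ℝ) < (m k : ℝ) / 2 := by
        have : (0 : ℝ) < m k := by exact_mod_cast hm k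
        positivity
      simpa using this) (fun k => ENNReal.ofReal_ne_top) hsum
    (by
      rw [← ENNReal.ofReal_tsum_of_nonneg hη0 hηs]
      rw [← ENNReal.ofReal_one]
      exact (ENNReal.ofReal_lt_ofReal_iff one_pos).2 hη1)
  refine ⟨Af f, ?_, ?_, ?_⟩
  · rintro x ⟨i, rfl⟩
    exact ⟨_, hval_mem _⟩
  · intro k
    have h1 : (univ.image (fun t : Fin (m k) => val ⟨⟨k, t⟩, f ⟨k, t⟩⟩)).card = m k := by
      rw [Finset.card_image_of_injective, Finset.card_univ, Fintype.card_fin]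
      intro t t' htt
      have := hval_inj htt
      simp only [Sigma.mk.injEq, heq_eq_eq, true_and] at this
      exact this.1
    rw [← h1]
    have hfin : (Af f ∩ (B k : Set ℤ)).Finite := (B k).finite_toSet.subset Set.inter_subset_right
    rw [← Set.ncard_coe_finset]
    refine Set.ncard_le_ncard ?_ hfin
    intro x hx
    obtain ⟨t, _, rfl⟩ := Finset.mem_image.1 (Finset.mem_coe.1 hx)
    exact ⟨⟨⟨k, t⟩, rfl⟩, hval_mem ⟨⟨k, t⟩, _⟩⟩
  · intro k
    have h1 := hf k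
    have h2 : (∑ z ∈ C k, (Ev k z).indicator (fun _ => (1 : ℝ≥0∞)) f) =
        (({z ∈ C k | ∀ e, z e ∈ Af f}).card : ℝ≥0∞) := by
      rw [Finset.card_filter]
      push_cast
      refine Finset.sum_congr rfl (fun z _ => ?_)
      by_cases hz : ∀ e, z e ∈ Af f
      · rw [if_pos hz, Set.indicator_of_mem]
        exact hz
      · rw [if_neg hz, Set.indicator_of_notMem]
        exact hz
    rw [h2] at h1
    have h3 : ({z ∈ (Zset h g ((range (k + 1)).biUnion B) : Set (Fin h × Fin g → ℤ)) |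
        ∀ e, z e ∈ Af f}).ncard = ({z ∈ C k | ∀ e, z e ∈ Af f}).card := by
      rw [← Set.ncard_coe_finset]
      congr 1
      ext z
      simp [C, Bk]
    rw [h3]
    have h4 : ((({z ∈ C k | ∀ e, z e ∈ Af f}).card : ℕ) : ℝ≥0∞) =
        ENNReal.ofReal ((({z ∈ C k | ∀ e, z e ∈ Af f}).card : ℕ) : ℝ) :=
      (ENNReal.ofReal_natCast _).symm
    rw [h4] at h1
    have hmk : (0 : ℝ) < (m k : ℝ) / 2 := by
      have : (0 : ℝ) < m k := by exact_mod_cast hm k
      positivity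
    exact (ENNReal.ofReal_lt_ofReal_iff hmk).1 h1

end Pool.Agent.W248.CHG
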