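import Mathlib
import Pool.Agent.W248.CHGSelect
import Pool.Agent.W248.CHGBlock
import Pool.Agent.W248.CHGNum

set_option autoImplicit false

open Finset Filter

namespace Pool.Agent.W248.CHG

/-- A set without `g` translates of an `h`-element set, with many elements in every block. -/
theorem exists_set (h g : ℕ) (hh : 2 ≤ h) (hg : 2 ≤ g) :
    ∃ A : Set ℤ, A ⊆ {n : ℤ | 1 ≤ n} ∧ A.Infinite ∧
      (∀ X : Finset ℤ, X.card = h → ∀ k : Fin g → ℤ, Function.Injective k →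
          ¬ (∀ i : Fin g, ∀ x ∈ X, x + k i ∈ A)) ∧
      ∀ K : ℕ, kk h g ≤ K → (2 : ℝ) ^ (al h g * ee K - 2 * K - 2) ≤
        ((A ∩ Set.Icc ((2 : ℤ) ^ (K ^ 2)) (2 ^ (K ^ 2 + 1))).ncard : ℝ) := by
  classical
  set k0 : ℕ := kk h g with hk0
  have hk06 : 6 ≤ k0 := by rw [hk0]; unfold kk; omega
  have hblock : ∀ k : ℕ, ∃ B : Finset ℤ, B.card = 2 ^ (ee (k + k0)) ∧
    (∀ x ∈ B, (2 : ℤ) ^ ((k + k0) ^ 2) ≤ x ∧ 2 * x < 3 * 2 ^ ((k + k0) ^ 2)) ∧
      ThreeAPFree (B : Set ℤ) := fun k => exists_block (k + k0) (by omega)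
  choose B hBc hB hBfree using hblock
  have hdisj : ∀ i j x, x ∈ B i → x ∈ B j → i = j := fun i j x hi hj =>
    block_disj B k0 (by omega) hB hi hj
  have hfree := union_free B k0 (by omega) hB hBfree
  have hηs : HasSum (fun k : ℕ => (1 / 2 / 2 * (1 / 2 : ℝ) ^ k)) (1 / 2 / 2 * 2) :=
    (hasSum_geometric_two).mul_left _
  obtain ⟨A0, hA0, hA1, hA2⟩ := select h g (by omega) (by omega) B hdisj
    (fun k => 2 ^ mu h g (k + k0)) (fun k => 2 ^ (ee (k + k0) - mu h g (k + k0)))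
    (fun k => by positivity) (fun k => by positivity)
    (fun k => by
      rw [hBc, ← pow_add]
      congr 1
      have := mu_le_ee hh hg (K := k + k0) (by omega)
      omega)
    (fun k => 1 / 2 / 2 * (1 / 2 : ℝ) ^ k) (fun k => by positivity) hηs.summable
    (by rw [hηs.tsum_eq]; norm_num) (fun k => numeric hh hg k)
  set R : Set ℤ := {x | ∃ k, x ∈ B k ∧ ∃ z ∈ Zset h g ((range (k + 1)).biUnion B),
    (∀ e, z e ∈ A0) ∧ (∃ e, z e = x) ∧ ∀ e, z e ≤ x} with hR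
  have hEne : Nonempty (Fin h × Fin g) := ⟨(⟨0, by omega⟩, ⟨0, by omega⟩)⟩
  -- counting in each block
  have hcount : ∀ k, ((2 ^ mu h g (k + k0) : ℕ) : ℝ) / 2 ≤
      (((A0 \ R) ∩ (B k : Set ℤ)).ncard : ℝ) := by
    intro k
    have h1 := hA1 k
    have h2 := hA2 k
    set T : Set (Fin h × Fin g → ℤ) :=
      {z ∈ (Zset h g ((range (k + 1)).biUnion B) : Set (Fin h × Fin g → ℤ)) | ∀ e, z e ∈ A0} with hT
    have hTfin : T.Finite := (Finset.finite_toSet _).subset (fun z hz => hz.1)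
    have hRk : (R ∩ (B k : Set ℤ)).ncard ≤ T.ncard := by
      have hsub : R ∩ (B k : Set ℤ) ⊆ (fun z : Fin h × Fin g → ℤ => univ.sup' univ_nonempty z) '' T := by
        rintro x ⟨⟨k', hxk', z, hz, hz1, ⟨e, he⟩, hz3⟩, hxk⟩
        have hkk : k' = k := hdisj k' k x hxk' hxk
        subst hkk
        refine ⟨z, ⟨hz, hz1⟩, ?_⟩
        apply le_antisymm
        · exact Finset.sup'_le _ _ (fun e _ => hz3 e)
        · rw [← he]
          exact Finset.le_sup' z (mem_univ e)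
      exact (Set.ncard_le_ncard hsub (hTfin.image _)).trans (Set.ncard_image_le hTfin)
    have hBfin : (B k : Set ℤ).Finite := Finset.finite_toSet _
    have h3 : (A0 ∩ (B k : Set ℤ)).ncard ≤ ((A0 \ R) ∩ (B k : Set ℤ)).ncard +
        (R ∩ (B k : Set ℤ)).ncard := by
      refine le_trans (Set.ncard_le_ncard ?_ ?_) (Set.ncard_union_le _ _)
      · rintro x ⟨hx1, hx2⟩
        by_cases hxR : x ∈ R
        · exact Or.inr ⟨hxR, hx2⟩
        · exact Or.inl ⟨⟨hx1, hxR⟩, hx2⟩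
      · exact (hBfin.subset Set.inter_subset_right).union (hBfin.subset Set.inter_subset_right)
    have h4 : ((2 ^ mu h g (k + k0) : ℕ) : ℝ) ≤ (((A0 \ R) ∩ (B k : Set ℤ)).ncard : ℝ) +
        (T.ncard : ℝ) := by
      have : 2 ^ mu h g (k + k0) ≤ ((A0 \ R) ∩ (B k : Set ℤ)).ncard + T.ncard := by omega
      exact_mod_cast this
    have h5 : (T.ncard : ℝ) < ((2 ^ mu h g (k + k0) : ℕ) : ℝ) / 2 := h2
    linarith
  have hpos : ∀ x ∈ A0 \ R, 1 ≤ x := by
    rintro x ⟨hx, _⟩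
    obtain ⟨k, hk⟩ := hA0 x hx
    have h1 := (hB k x hk).1
    have h2 : (1 : ℤ) ≤ 2 ^ ((k + k0) ^ 2) := one_le_pow₀ (by norm_num)
    linarith
  refine ⟨A0 \ R, hpos, ?_, ?_, ?_⟩
  · -- infinite
    have hne : ∀ k, ∃ x, x ∈ (A0 \ R) ∩ (B k : Set ℤ) := by
      intro k
      have h1 := hcount k
      have h2 : (0 : ℝ) < ((2 ^ mu h g (k + k0) : ℕ) : ℝ) / 2 := by positivity
      have h3 : (0 : ℝ) < (((A0 \ R) ∩ (B k : Set ℤ)).ncard : ℝ) := lt_of_lt_of_le h2 h1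
      have h4 : ((A0 \ R) ∩ (B k : Set ℤ)).ncard ≠ 0 := by
        intro h0
        rw [h0] at h3
        simp at h3
      exact Set.nonempty_of_ncard_ne_zero h4
    choose x hx using hne
    refine Set.infinite_of_injective_forall_mem (f := x) ?_ (fun k => (hx k).1)
    intro i j hij
    exact hdisj i j (x i) (hx i).2 (by rw [hij]; exact (hx j).2)
  · -- freeness
    intro X hX kf hkf hall
    let xs : Fin h → ℤ := fun i => X.orderEmbOfFin hX i
    have hxs : ∀ i, xs i ∈ X := fun i => X.orderEmbOfFin_mem hX i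
    have hxsinj : Function.Injective xs := (X.orderEmbOfFin hX).injective
    let z : Fin h × Fin g → ℤ := fun e => xs e.1 + kf e.2
    have hzA : ∀ e, z e ∈ A0 \ R := fun e => hall e.2 (xs e.1) (hxs e.1)
    have hzB : ∀ e, ∃ k, z e ∈ B k := fun e => hA0 _ (hzA e).1
    have hzadd : Additive' z := by
      intro i i' j j'
      simp only [z]
      ring
    have hzinj : Function.Injective z := by
      rintro ⟨i, j⟩ ⟨i', j'⟩ hee
      simp only [z] at hee
      by_cases hj : j = j'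
      · subst hj
        have : xs i = xs i' := by linarith
        rw [hxsinj this]
      · exfalso
        apply hj
        have h1 := hfree (z (i, j')) (z (i, j)) (z (i', j)) (hzB _) (hzB _) (hzB _)
          (by simp only [z]; linarith)
        simp only [z] at h1
        apply hkf
        linarith
    obtain ⟨e0, _, he0⟩ := Finset.exists_max_image univ z univ_nonempty
    obtain ⟨k, hk⟩ := hzB e0
    apply (hzA e0).2
    refine ⟨k, hk, z, ?_, fun e => (hzA e).1, ⟨e0, rfl⟩, fun e => he0 e (mem_univ e)⟩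
    rw [mem_Zset]
    refine ⟨fun e => ?_, hzinj, hzadd⟩
    obtain ⟨j, hj⟩ := hzB e
    refine Finset.mem_biUnion.2 ⟨j, ?_, hj⟩
    rw [Finset.mem_range]
    by_contra hjk
    push Not at hjk
    have h1 := block_gap (i := k + k0) (j := j + k0) (by omega) (by omega) (hB k _ hk).2
    have h2 := (hB j _ hj).1
    have h3 := he0 e (mem_univ e)
    have h4 := hpos _ (hzA e0)
    linarith
  · intro K hK
    obtain ⟨k, rfl⟩ : ∃ k, K = k + k0 := ⟨K - k0, by omega⟩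
    have h1 := hcount k
    have h2 := mu_ge hh hg hK
    have h3 : (2 : ℝ) ^ (al h g * ee (k + k0) - 2 * ((k + k0 : ℕ) : ℝ) - 2) ≤
        ((2 ^ mu h g (k + k0) : ℕ) : ℝ) / 2 := by
      have h4 : ((2 ^ mu h g (k + k0) : ℕ) : ℝ) / 2 = (2 : ℝ) ^ (((mu h g (k + k0) : ℕ) : ℝ) - 1) := by
        rw [Real.rpow_sub (by norm_num), Real.rpow_one, Real.rpow_natCast]
        push_cast
        rfl
      rw [h4]
      apply Real.rpow_le_rpow_of_exponent_le (by norm_num)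
      linarith
    refine (h3.trans h1).trans ?_
    have h5 : ((A0 \ R) ∩ (B k : Set ℤ)).ncard ≤
        ((A0 \ R) ∩ Set.Icc ((2 : ℤ) ^ ((k + k0) ^ 2)) (2 ^ ((k + k0) ^ 2 + 1))).ncard := by
      refine Set.ncard_le_ncard ?_ ((Set.finite_Icc _ _).subset Set.inter_subset_right)
      rintro x ⟨hx1, hx2⟩
      refine ⟨hx1, ?_, ?_⟩
      · exact (hB k x hx2).1
      · have h6 := (hB k x hx2).2
        rw [pow_succ]
        have : (0 : ℤ) < 2 ^ ((k + k0) ^ 2) := by positivity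
        linarith
    exact_mod_cast h5

/-- The final asymptotics. -/
theorem main (h g : ℕ) (hh : 2 ≤ h) (hg : 2 ≤ g) :
    ∃ A : Set ℤ, A ⊆ {n : ℤ | 1 ≤ n} ∧ A.Infinite ∧
      (∀ X : Finset ℤ, X.card = h → ∀ k : Fin g → ℤ, Function.Injective k →
          ¬ (∀ i : Fin g, ∀ x ∈ X, x + k i ∈ A)) ∧
      ∀ ε : ℝ, 0 < ε → ∀ᶠ n : ℕ in atTop,
        (n : ℝ) ^ (al h g - ε) ≤ ((A ∩ Set.Icc (1 : ℤ) (n : ℤ)).ncard : ℝ) := by
  obtain ⟨A, hA1, hA2, hA3, hA4⟩ := exists_set h g hh hg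
  refine ⟨A, hA1, hA2, hA3, fun ε hε => ?_⟩
  set a : ℝ := al h g with ha
  have ha0 : 0 < a := al_pos hh hg
  have ha1 : a < 1 := al_lt_one hh hg
  set ε' : ℝ := min ε a with hε'
  have hε'0 : 0 < ε' := lt_min hε ha0
  obtain ⟨K1, hK1⟩ := exists_nat_gt (14 / ε')
  set K2 : ℕ := max (kk h g) (max K1 1) with hK2
  filter_upwards [eventually_ge_atTop (2 ^ (K2 ^ 2 + 1))] with n hn
  have hn0 : n ≠ 0 := by
    intro h0
    rw [h0] at hn
    have : 0 < 2 ^ (K2 ^ 2 + 1) := by positivity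
    omega
  have hlog : K2 ^ 2 + 1 ≤ Nat.log 2 n := (Nat.le_log_iff_pow_le (by norm_num) hn0).2 hn
  set K : ℕ := Nat.sqrt (Nat.log 2 n - 1) with hK
  have hKK2 : K2 ≤ K := by
    rw [hK, Nat.le_sqrt']
    omega
  have hK_le : K ^ 2 ≤ Nat.log 2 n - 1 := Nat.sqrt_le' _
  have hK_lt : Nat.log 2 n - 1 < (K + 1) ^ 2 := Nat.lt_succ_sqrt' _
  have hn1 : 2 ^ (K ^ 2 + 1) ≤ n := by
    calc 2 ^ (K ^ 2 + 1) ≤ 2 ^ (Nat.log 2 n) := Nat.pow_le_pow_right (by norm_num) (by omega)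
      _ ≤ n := Nat.pow_log_le_self 2 hn0
  have hn2 : n < 2 ^ ((K + 1) ^ 2 + 1) := by
    calc n < 2 ^ (Nat.log 2 n + 1) := Nat.lt_pow_succ_log_self (by norm_num) n
      _ ≤ _ := Nat.pow_le_pow_right (by norm_num) (by omega)
  have hKk0 : kk h g ≤ K := le_trans (le_max_left _ _) hKK2
  have h6K : 6 ≤ K := by
    have : 6 ≤ kk h g := by unfold kk; omega
    omega
  have hmain := hA4 K hKk0
  have hKr : 14 / ε' < K := by
    have : K1 ≤ K := le_trans (le_trans (le_max_left _ _) (le_max_right _ _)) hKK2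
    have : (K1 : ℝ) ≤ K := by exact_mod_cast this
    linarith
  have hKr' : 14 ≤ ε' * K := by
    rw [div_lt_iff₀ hε'0] at hKr
    linarith
  have hn1r : (1 : ℝ) ≤ n := by
    have : 1 ≤ n := Nat.one_le_iff_ne_zero.2 hn0
    exact_mod_cast this
  have s1 : (n : ℝ) ^ (a - ε) ≤ (n : ℝ) ^ (a - ε') :=
    Real.rpow_le_rpow_of_exponent_le hn1r (by linarith [min_le_left ε a])
  have s2 : (n : ℝ) ^ (a - ε') ≤ (2 : ℝ) ^ ((((K : ℝ) + 1) ^ 2 + 1) * (a - ε')) := by
    rw [Real.rpow_mul (by norm_num)]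
    apply Real.rpow_le_rpow (by linarith) _ (by linarith [min_le_right ε a])
    have : (n : ℝ) ≤ (2 : ℝ) ^ ((K + 1) ^ 2 + 1) := by exact_mod_cast hn2.le
    refine this.trans (le_of_eq ?_)
    rw [← Real.rpow_natCast]
    push_cast
    rfl
  have s3 : (2 : ℝ) ^ ((((K : ℝ) + 1) ^ 2 + 1) * (a - ε')) ≤
      (2 : ℝ) ^ (a * ee K - 2 * K - 2) := by
    apply Real.rpow_le_rpow_of_exponent_le (by norm_num)
    rw [ee_cast h6K]
    have hKr6 : (6 : ℝ) ≤ K := by exact_mod_cast h6K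
    nlinarith
  have s4 : ((A ∩ Set.Icc ((2 : ℤ) ^ (K ^ 2)) (2 ^ (K ^ 2 + 1))).ncard : ℝ) ≤
      ((A ∩ Set.Icc (1 : ℤ) (n : ℤ)).ncard : ℝ) := by
    have : (A ∩ Set.Icc ((2 : ℤ) ^ (K ^ 2)) (2 ^ (K ^ 2 + 1))).ncard ≤
        (A ∩ Set.Icc (1 : ℤ) (n : ℤ)).ncard := by
      refine Set.ncard_le_ncard ?_ ((Set.finite_Icc _ _).subset Set.inter_subset_right)
      rintro x ⟨hx1, hx2, hx3⟩
      refine ⟨hx1, hA1 hx1, hx3.trans ?_⟩
      exact_mod_cast hn1
    exact_mod_cast this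
  exact ((s1.trans s2).trans (s3.trans hmain)).trans s4

end Pool.Agent.W248.CHG
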